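import Pool.Agent.GRA.StmtsM

/-! Row MAR of the squad GRA (MP_3b0ba7_pr): the real inequality. -/

namespace Pool.Agent.GRA.H14

open Pool.Agent.GRA

/-- the bound of the mass -/
theorem mar_mass (x c m : ℝ) (hx : 0 ≤ x) (hc : 4 * (x + 5) + 12 ≤ c)
    (h : m * (c - 2 * (x + 5)) + 3 * (1 - m) ≤ 2 * c / (x + 5)) :
    m ≤ (5 * x + 49) / ((x + 5) * (2 * x + 19)) := by
  have hN : 0 < x + 5 := by linarith
  rw [le_div_iff₀ hN] at h
  rw [le_div_iff₀ (by positivity)]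
  obtain ⟨u, hu, rfl⟩ : ∃ u, 0 ≤ u ∧ c = 4 * (x + 5) + 12 + u :=
    ⟨c - (4 * (x + 5) + 12), by linarith, by ring⟩
  by_contra hcon
  push Not at hcon
  -- `y = m N`
  have h2 : m * (x + 5) * (2 * x + 19 + u) ≤ 2 * u + (5 * x + 49) := by nlinarith [h]
  have h3 : 2 < m * (x + 5) := by
    by_contra h4
    push Not at h4
    nlinarith
  nlinarith

/-- the reduction to the end point -/
theorem mar_lin (A B T m M : ℝ) (hAB : A ≤ B) (hm : m ≤ M) (h : T ≤ A * M + B * (1 - M)) :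
    T ≤ A * m + B * (1 - m) := by nlinarith [mul_nonneg (sub_nonneg.2 hAB) (sub_nonneg.2 hm)]

theorem mar_1 (x : ℝ) (hx : 0 ≤ x) :
    (x + 3) * (2 * x + 6) / ((x + 4) * (2 * x + 5)) ≤
      (2 * (x + 5) / (3 * (x + 4))) * ((5 * x + 49) / ((x + 5) * (2 * x + 19))) +
      (1 + (x + 2) / (5 * (x + 4))) * (1 - (5 * x + 49) / ((x + 5) * (2 * x + 19))) := by
  have h1 : (x + 4) ≠ 0 := by positivity
  have h2 : (2 * x + 5) ≠ 0 := by positivity
  have h3 : (x + 5) ≠ 0 := by positivity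
  have h4 : (2 * x + 19) ≠ 0 := by positivity
  rw [← sub_nonneg]
  have e : (2 * (x + 5) / (3 * (x + 4))) * ((5 * x + 49) / ((x + 5) * (2 * x + 19))) +
      (1 + (x + 2) / (5 * (x + 4))) * (1 - (5 * x + 49) / ((x + 5) * (2 * x + 19))) -
      (x + 3) * (2 * x + 6) / ((x + 4) * (2 * x + 5)) =
      (7120 + 8988 * x + 4858 * x ^ 2 + 1476 * x ^ 3 + 226 * x ^ 4 + 12 * x ^ 5) /
        (3 * (x + 5) * (x + 4) * (2 * x + 19) * (2 * x + 5) * (5 * (x + 4))) := by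
    field_simp
    ring
  rw [e]
  positivity

theorem mar_2 (x : ℝ) (hx : 0 ≤ x) :
    (x + 3) * (2 * x + 6) / ((x + 4) * (2 * x + 5)) ≤
      (2 * (x + 5) / (3 * (x + 4))) * ((5 * x + 49) / ((x + 5) * (2 * x + 19))) +
      (1 + 1 / (2 * x + 3)) * (1 - (5 * x + 49) / ((x + 5) * (2 * x + 19))) := by
  have h1 : (x + 4) ≠ 0 := by positivity
  have h2 : (2 * x + 5) ≠ 0 := by positivity
  have h3 : (x + 5) ≠ 0 := by positivity
  have h4 : (2 * x + 19) ≠ 0 := by positivity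
  have h5 : (2 * x + 3) ≠ 0 := by positivity
  rw [← sub_nonneg]
  have e : (2 * (x + 5) / (3 * (x + 4))) * ((5 * x + 49) / ((x + 5) * (2 * x + 19))) +
      (1 + 1 / (2 * x + 3)) * (1 - (5 * x + 49) / ((x + 5) * (2 * x + 19))) -
      (x + 3) * (2 * x + 6) / ((x + 4) * (2 * x + 5)) =
      (3000 + 3298 * x + 1136 * x ^ 2 + 122 * x ^ 3 + 4 * x ^ 4) /
        (3 * (x + 5) * (x + 4) * (2 * x + 19) * (2 * x + 5) * (2 * x + 3)) := by
    field_simp
    ring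
  rw [e]
  positivity

theorem mar_3 (x : ℝ) (hx : 0 ≤ x) :
    (x + 3) * (2 * x + 6) / ((x + 4) * (2 * x + 5)) ≤
      (2 * (x + 5) / (3 * (x + 4))) * ((5 * x + 49) / ((x + 5) * (2 * x + 19))) +
      (1 + 2 / (x + 4)) * (1 - (5 * x + 49) / ((x + 5) * (2 * x + 19))) := by
  have h1 : (x + 4) ≠ 0 := by positivity
  have h2 : (2 * x + 5) ≠ 0 := by positivity
  have h3 : (x + 5) ≠ 0 := by positivity
  have h4 : (2 * x + 19) ≠ 0 := by positivity
  rw [← sub_nonneg]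
  have e : (2 * (x + 5) / (3 * (x + 4))) * ((5 * x + 49) / ((x + 5) * (2 * x + 19))) +
      (1 + 2 / (x + 4)) * (1 - (5 * x + 49) / ((x + 5) * (2 * x + 19))) -
      (x + 3) * (2 * x + 6) / ((x + 4) * (2 * x + 5)) =
      (5840 + 6420 * x + 2456 * x ^ 2 + 384 * x ^ 3 + 20 * x ^ 4) /
        (3 * (x + 5) * (x + 4) * (2 * x + 19) * (2 * x + 5) * (x + 4)) := by
    field_simp
    ring
  rw [e]
  positivity

theorem mar : MARStmt := by
  intro N c m hN hc hm0 hm1 h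
  obtain ⟨x, hx, rfl⟩ : ∃ x, 0 ≤ x ∧ N = x + 5 := ⟨N - 5, by linarith, by ring⟩
  have hm := mar_mass x c m hx hc h
  have hx4 : (0 : ℝ) < x + 4 := by linarith
  have hA : 2 * (x + 5) / (3 * (x + 4)) ≤ 1 := by
    rw [div_le_one (by positivity)]
    linarith
  have key : ∀ δ : ℝ, 0 ≤ δ →
      (x + 3) * (2 * x + 6) / ((x + 4) * (2 * x + 5)) ≤
      (2 * (x + 5) / (3 * (x + 4))) * ((5 * x + 49) / ((x + 5) * (2 * x + 19))) +
      (1 + δ) * (1 - (5 * x + 49) / ((x + 5) * (2 * x + 19))) →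
      (x + 5 - 2) * (2 * (x + 5) - 4) / ((x + 5 - 1) * (2 * (x + 5) - 5)) ≤
      (2 * (x + 5) / (3 * (x + 5 - 1))) * m + (1 + δ) * (1 - m) := by
    intro δ hδ hle
    have e1 : x + 5 - 2 = x + 3 := by ring
    have e2 : 2 * (x + 5) - 4 = 2 * x + 6 := by ring
    have e3 : x + 5 - 1 = x + 4 := by ring
    have e4 : 2 * (x + 5) - 5 = 2 * x + 5 := by ring
    rw [e1, e2, e3, e4]
    exact mar_lin _ _ _ _ _ (by linarith) hm hle
  unfold dl
  have f1 : (x + 5 - 1 - 2) / (5 * (x + 5 - 1)) = (x + 2) / (5 * (x + 4)) := by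
    congr 1 <;> ring
  have f2 : 1 / (2 * (x + 5 - 1) - 5) = 1 / (2 * x + 3) := by
    congr 1; ring
  have f3 : 2 / (x + 5 - 1) = 2 / (x + 4) := by
    congr 1; ring
  rcases min_choice ((x + 5 - 1 - 2) / (5 * (x + 5 - 1)))
    (min (1 / (2 * (x + 5 - 1) - 5)) (2 / (x + 5 - 1))) with h1 | h1
  · rw [h1, f1]
    exact key _ (by positivity) (mar_1 x hx)
  · rw [h1]
    rcases min_choice (1 / (2 * (x + 5 - 1) - 5)) (2 / (x + 5 - 1)) with h2 | h2
    · rw [h2, f2]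
      exact key _ (by positivity) (mar_2 x hx)
    · rw [h2, f3]
      exact key _ (by positivity) (mar_3 x hx)

end Pool.Agent.GRA.H14
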