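import Pool.Agent.GRA.StmtsM

/-! Row MFA of the squad GRA (MP_3b0ba7_pr): the induction. -/

namespace Pool.Agent.GRA.H14

open Pool.Agent.GRA

theorem mfa (h3 : MF3Stmt) (h4 : MF4Stmt) (hHC : MHCStmt) (hRB : MRBStmt) : MFAStmt := by
  intro p hp
  induction p, hp using Nat.le_induction with
  | base => exact h3
  | succ p hp ih =>
    rcases Nat.lt_or_ge p 4 with h | h
    · have hp3 : p = 3 := by omega
      subst hp3
      exact h4 ih
    · intro ρ D C hirr hns hD hC f hf hsi hf0
      have h1 := hHC p h ih ρ D C hirr hns hD hC f hf hsi hf0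
      have h2 := hRB p h ih ρ D C hirr hns hD hC h1 f hf hsi hf0
      refine ⟨?_, ?_⟩
      · push_cast
        exact h1
      · intro a b hab
        push_cast
        exact h2 a b hab

end Pool.Agent.GRA.H14
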